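import Mathlib

set_option autoImplicit false

/-- In a π-regular ring every (regular) element has a regular power `a ^ k` with `k ≥ 2`. -/
theorem Pool.Agent.Results.MP_59f064_al.NoSuchElement.result
    (R : Type*) [Ring R]
    (hR : ∀ a : R, ∃ n : ℕ, 1 ≤ n ∧ ∃ x : R, a ^ n = a ^ n * x * a ^ n)
    (a : R) (_ha : ∃ x : R, a = a * x * a) :
    ∃ k : ℕ, 2 ≤ k ∧ ∃ x : R, a ^ k = a ^ k * x * a ^ k := by
  obtain ⟨n, hn, x, hx⟩ := hR (a ^ 2)
  refine ⟨2 * n, by omega, x, ?_⟩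
  rw [pow_mul]
  exact hx
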